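import Pool.Agent.Helper30.RCU.Defs

/-!
# Project RCU (MP_e3e162_pr), module CB: the kernel with boundary condition as a finite random-cluster measure
-/

set_option autoImplicit false

namespace Pool.Agent.Helper37.RCU

open Pool.Agent.Helper30.RCU Finset

open Classical

universe u v w

/-- lifting of connections -/
private lemma conn_lift {V : Type u} {ι : Type v} {ι' : Type w} {φ : ι → Sym2 V} {φ' : ι' → Sym2 V}
    {ω : Set ι} {ω' : Set ι'} (h : ∀ e ∈ ω, ∀ a b, φ e = s(a, b) → Conn φ' ω' a b) {a b : V}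
    (hc : Conn φ ω a b) : Conn φ' ω' a b := by
  obtain ⟨w⟩ := hc
  induction w with
  | nil => exact Conn.refl _ _
  | @cons u w v hadj p ih =>
    rw [gr, SimpleGraph.fromEdgeSet_adj] at hadj
    obtain ⟨⟨e, he, hee⟩, _⟩ := hadj
    exact (h e he _ _ hee).trans ih

/-- a property preserved by the edges holds in the whole component -/
private lemma conn_induct {V : Type u} {ι : Type v} {φ : ι → Sym2 V} {ω : Set ι} {Q : V → Prop}
    (h : ∀ e ∈ ω, ∀ a b, φ e = s(a, b) → Q a → Q b) {a b : V}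
    (hc : Conn φ ω a b) (ha : Q a) : Q b := by
  obtain ⟨w⟩ := hc
  induction w with
  | nil => exact ha
  | @cons u w v hadj p ih =>
    rw [gr, SimpleGraph.fromEdgeSet_adj] at hadj
    obtain ⟨⟨e, he, hee⟩, _⟩ := hadj
    exact ih (h e he _ _ hee ha)

section

variable {V : Type u} {ι : Type v} {ι' : Type w} (j : ι ↪ ι') (φ₀ : ι → Sym2 V) (φ : ι' → Sym2 V)
  (hφ : ∀ e, φ (j e) = φ₀ e) (F : Finset ι) (ξ : Set ι) (K : Finset ι') (U : Finset V)
  (hU : ∀ e ∈ F, ∀ v ∈ φ₀ e, v ∈ U)
  (hKc : ∀ k ∈ K, ∀ a b, φ k = s(a, b) → Conn φ₀ (ξ \ (F : Set ι)) a b)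
  (hKe : ∀ a ∈ U, ∀ b ∈ U, Conn φ₀ (ξ \ (F : Set ι)) a b → ∃ k ∈ K, φ k = s(a, b))

include hφ hU hKc hKe in
/-- step (1) -/
private lemma conn_iff_cb {η : Finset ι} (hη : η ⊆ F) {a b : V} (ha : a ∈ U) (hb : b ∈ U) :
    Conn φ₀ ((η : Set ι) ∪ (ξ \ (F : Set ι))) a b ↔
      Conn φ ((η.map j ∪ K : Finset ι') : Set ι') a b := by
  constructor
  · intro hc
    have key : ∃ c ∈ U, Conn φ ((η.map j ∪ K : Finset ι') : Set ι') a c ∧
        Conn φ₀ (ξ \ (F : Set ι)) c b := by
      refine conn_induct (Q := fun v => ∃ c ∈ U, Conn φ ((η.map j ∪ K : Finset ι') : Set ι') a c ∧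
        Conn φ₀ (ξ \ (F : Set ι)) c v) ?_ hc ⟨a, ha, Conn.refl _ _, Conn.refl _ _⟩
      rintro e (he | he) x y hxy ⟨c, hcU, h1, h2⟩
      · have heη : e ∈ η := by exact_mod_cast he
        have heF := hη heη
        have hx : x ∈ U := hU e heF x (hxy ▸ Sym2.mem_mk_left _ _)
        have hy : y ∈ U := hU e heF y (hxy ▸ Sym2.mem_mk_right _ _)
        obtain ⟨k, hk, hk2⟩ := hKe c hcU x hx h2
        refine ⟨y, hy, ?_, Conn.refl _ _⟩
        have h3 : Conn φ ((η.map j ∪ K : Finset ι') : Set ι') c x :=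
          conn_of_mem hk2 (by
            rw [Finset.mem_coe, mem_union]
            exact Or.inr hk)
        have h4 : Conn φ ((η.map j ∪ K : Finset ι') : Set ι') x y :=
          conn_of_mem (e := j e) (by rw [hφ, hxy]) (by
            rw [Finset.mem_coe, mem_union]
            exact Or.inl (Finset.mem_map_of_mem j heη))
        exact (h1.trans h3).trans h4
      · exact ⟨c, hcU, h1, h2.trans (conn_of_mem hxy he)⟩
    obtain ⟨c, hcU, h1, h2⟩ := key
    obtain ⟨k, hk, hk2⟩ := hKe c hcU b hb h2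
    exact h1.trans (conn_of_mem hk2 (by
      rw [Finset.mem_coe, mem_union]
      exact Or.inr hk))
  · intro hc
    refine conn_lift ?_ hc
    intro k hk x y hxy
    rw [Finset.mem_coe, mem_union, Finset.mem_map] at hk
    rcases hk with ⟨e, he, rfl⟩ | hk
    · rw [hφ] at hxy
      exact conn_of_mem hxy (Or.inl (by exact_mod_cast he))
    · exact (hKc k hk x y hxy).mono Set.subset_union_right

include hφ hU hKc hKe in
/-- step (2) -/
private lemma kU_rk_cb (η : Finset ι) : η ⊆ F →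
    kU φ₀ U ((η : Set ι) ∪ (ξ \ (F : Set ι))) + rk φ (η.map j ∪ K) =
      kU φ₀ U (ξ \ (F : Set ι)) + rk φ K := by
  induction η using Finset.induction_on with
  | empty =>
    intro _
    simp
  | insert e η he ih =>
    intro hη
    have hη' : η ⊆ F := (subset_insert _ _).trans hη
    have heF : e ∈ F := hη (mem_insert_self _ _)
    obtain ⟨a, b, hab⟩ := exists_mk (φ := φ₀) e
    have ha : a ∈ U := hU e heF a (hab ▸ Sym2.mem_mk_left _ _)
    have hb : b ∈ U := hU e heF b (hab ▸ Sym2.mem_mk_right _ _)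
    have hab' : φ (j e) = s(a, b) := by rw [hφ, hab]
    have e1 : (((insert e η : Finset ι) : Set ι) ∪ (ξ \ (F : Set ι))) =
        insert e ((η : Set ι) ∪ (ξ \ (F : Set ι))) := by
      rw [Finset.coe_insert, Set.insert_union]
    have e2 : ((insert e η).map j ∪ K : Finset ι') = insert (j e) (η.map j ∪ K) := by
      rw [Finset.map_insert, Finset.insert_union]
    have h0 := ih hη'
    rw [e1, e2]
    by_cases hc : Conn φ₀ ((η : Set ι) ∪ (ξ \ (F : Set ι))) a b
    · have hc' := (conn_iff_cb j φ₀ φ hφ F ξ K U hU hKc hKe hη' ha hb).1 hc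
      rw [kU_insert_of_conn U hab hc, rk_insert_of_conn hab' hc']
      exact h0
    · have hc' : ¬ Conn φ ((η.map j ∪ K : Finset ι') : Set ι') a b := fun h =>
        hc ((conn_iff_cb j φ₀ φ hφ F ξ K U hU hKc hKe hη' ha hb).2 h)
      have h1 := kU_insert_of_not_conn hab ha hb hc
      have h2 := rk_insert_of_not_conn hab' hc'
      omega

variable (hj : ∀ k ∈ K, ∀ e, j e ≠ k) (P : ι' → ℝ) (p q : ℝ) (hP : ∀ e, P (j e) = p)
  (hP1 : ∀ k ∈ K, P k = 1) (hq : 1 ≤ q)

include hφ hU hKc hKe hj hP hP1 hq in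
/-- the weights -/
private lemma wt_cb {η : Finset ι} (hη : η ⊆ F) :
    p ^ η.card * (1 - p) ^ (F.card - η.card) * q ^ kU φ₀ U ((η : Set ι) ∪ (ξ \ (F : Set ι))) =
      q ^ (kU φ₀ U (ξ \ (F : Set ι)) + rk φ K) * wt φ P q (F.map j ∪ K) (η.map j ∪ K) := by
  have hq0 : q ≠ 0 := by positivity
  have h1 := kU_rk_cb j φ₀ φ hφ F ξ K U hU hKc hKe η hη
  have hdisj : ∀ A : Finset ι, Disjoint (A.map j) K := by
    intro A
    rw [Finset.disjoint_left]
    intro k hk hkK
    obtain ⟨e, _, rfl⟩ := Finset.mem_map.1 hk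
    exact hj _ hkK e rfl
  have e1 : ∏ e ∈ η.map j ∪ K, P e = p ^ η.card := by
    rw [Finset.prod_union (hdisj η), Finset.prod_map, Finset.prod_congr rfl (fun e _ => hP e),
      Finset.prod_congr (s₁ := K) rfl hP1]
    simp
  have e2 : (F.map j ∪ K) \ (η.map j ∪ K) = (F \ η).map j := by
    ext k
    simp only [mem_sdiff, mem_union, Finset.mem_map]
    constructor
    · rintro ⟨⟨e, he, rfl⟩ | hk, h2⟩
      · refine ⟨e, ⟨he, fun h => h2 (Or.inl ⟨e, h, rfl⟩)⟩, rfl⟩
      · exact absurd (Or.inr hk) h2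
    · rintro ⟨e, ⟨he, hne⟩, rfl⟩
      refine ⟨Or.inl ⟨e, he, rfl⟩, ?_⟩
      rintro (⟨e', he', hee⟩ | hk)
      · exact hne (j.injective hee ▸ he')
      · exact hj _ hk e rfl
  have e3 : ∏ e ∈ (F.map j ∪ K) \ (η.map j ∪ K), (1 - P e) = (1 - p) ^ (F.card - η.card) := by
    rw [e2, Finset.prod_map, Finset.prod_congr rfl (fun e _ => by rw [hP e]), Finset.prod_const,
      Finset.card_sdiff_of_subset hη]
  unfold wt
  rw [e1, e3, ← h1, pow_add, inv_pow]
  field_simp

include hφ hU hKc hKe hj hP hP1 hq in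
/-- the sums -/
private lemma sum_cb (L : Finset ι' → Finset ι) (hL : ∀ η ⊆ F, L (η.map j ∪ K) = η)
    (g : Finset ι → ℝ) :
    ∑ η ∈ F.powerset, p ^ η.card * (1 - p) ^ (F.card - η.card) *
      q ^ kU φ₀ U ((η : Set ι) ∪ (ξ \ (F : Set ι))) * g η =
      q ^ (kU φ₀ U (ξ \ (F : Set ι)) + rk φ K) * S φ P q (F.map j ∪ K) (fun ω => g (L ω)) := by
  unfold S
  have hinj : Set.InjOn (fun η : Finset ι => η.map j ∪ K) (F.powerset : Set (Finset ι)) := by
    intro η hη η' hη' h
    have h1 := hL η (by simpa using hη)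
    have h2 := hL η' (by simpa using hη')
    simp only at h
    rw [← h1, ← h2, h]
  have hsub : F.powerset.image (fun η : Finset ι => η.map j ∪ K) ⊆ (F.map j ∪ K).powerset := by
    intro ω hω
    obtain ⟨η, hη, rfl⟩ := Finset.mem_image.1 hω
    rw [mem_powerset] at hη ⊢
    exact union_subset_union_left (Finset.map_subset_map.2 hη)
  rw [← Finset.sum_subset hsub]
  · rw [Finset.sum_image hinj, Finset.mul_sum]
    refine Finset.sum_congr rfl fun η hη => ?_
    rw [mem_powerset] at hη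
    rw [wt_cb j φ₀ φ hφ F ξ K U hU hKc hKe hj P p q hP hP1 hq hη, mul_assoc]
    beta_reduce
    rw [hL η hη]
  · intro ω hω hω2
    rw [mem_powerset] at hω
    have hK : ¬ K ⊆ ω := by
      intro hKω
      apply hω2
      rw [Finset.mem_image]
      refine ⟨F.filter (fun e => j e ∈ ω), by rw [mem_powerset]; exact filter_subset _ _, ?_⟩
      ext k
      simp only [mem_union, Finset.mem_map, mem_filter]
      constructor
      · rintro (⟨e, ⟨_, he⟩, rfl⟩ | hk)
        · exact he
        · exact hKω hk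
      · intro hk
        rcases mem_union.1 (hω hk) with h | h
        · obtain ⟨e, he, rfl⟩ := Finset.mem_map.1 h
          exact Or.inl ⟨e, ⟨he, hk⟩, rfl⟩
        · exact Or.inr h
    obtain ⟨k, hk, hkω⟩ := Finset.not_subset.1 hK
    have h0 : ∏ e ∈ (F.map j ∪ K) \ ω, (1 - P e) = 0 := by
      refine Finset.prod_eq_zero (i := k) ?_ ?_
      · rw [mem_sdiff]
        exact ⟨mem_union_right _ hk, hkω⟩
      · rw [hP1 k hk, sub_self]
    unfold wt
    rw [h0]
    ring

include hφ hU hKc hKe hj hP hP1 hq in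
/-- the kernel -/
private lemma ex_cb (L : Finset ι' → Finset ι) (hL : ∀ η ⊆ F, L (η.map j ∪ K) = η)
    (g : Finset ι → ℝ) :
    (∑ η ∈ F.powerset, p ^ η.card * (1 - p) ^ (F.card - η.card) *
      q ^ kU φ₀ U ((η : Set ι) ∪ (ξ \ (F : Set ι))) * g η) /
    (∑ η ∈ F.powerset, p ^ η.card * (1 - p) ^ (F.card - η.card) *
      q ^ kU φ₀ U ((η : Set ι) ∪ (ξ \ (F : Set ι)))) =
      ex φ P q (F.map j ∪ K) (fun ω => g (L ω)) := by
  have h1 := sum_cb j φ₀ φ hφ F ξ K U hU hKc hKe hj P p q hP hP1 hq L hL g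
  have h2 := sum_cb j φ₀ φ hφ F ξ K U hU hKc hKe hj P p q hP hP1 hq L hL (fun _ => 1)
  simp only [mul_one] at h2
  rw [h1, h2]
  unfold ex
  have hq0 : q ≠ 0 := by positivity
  exact mul_div_mul_left _ _ (pow_ne_zero _ hq0)

end

/-- Module CB. -/
theorem hCB : StCB.{u} := by
  intro V G p q _ _ hq F ξ g
  have h := ex_cb (Function.Embedding.inl : G.edgeSet ↪ WE G) (fun e : G.edgeSet => (e : Sym2 V))
    (φW G) (fun e => rfl) F ξ (Kx G F ξ) (VF G F)
    (by
      intro e he v hv
      unfold VF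
      rw [mem_ends]
      exact ⟨e, he, hv⟩)
    (by
      intro k hk a b hab
      unfold Kx at hk
      obtain ⟨z, hz, rfl⟩ := Finset.mem_map.1 hk
      have hz2 := (Finset.mem_filter.1 hz).2
      have e1 : s(z.1, z.2) = s(a, b) := hab
      rw [Sym2.eq_iff] at e1
      rcases e1 with ⟨h1, h2⟩ | ⟨h1, h2⟩
      · rw [← h1, ← h2]
        exact hz2
      · rw [← h1, ← h2]
        exact hz2.symm)
    (by
      intro a ha b hb hc
      refine ⟨Sum.inr (a, b), ?_, rfl⟩
      unfold Kx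
      refine Finset.mem_map.2 ⟨(a, b), ?_, rfl⟩
      rw [Finset.mem_filter, Finset.mem_product]
      exact ⟨⟨ha, hb⟩, hc⟩)
    (by
      intro k hk e
      unfold Kx at hk
      obtain ⟨z, _, rfl⟩ := Finset.mem_map.1 hk
      intro h
      exact absurd h (by simp))
    (pW G p) p q (fun e => rfl)
    (by
      intro k hk
      unfold Kx at hk
      obtain ⟨z, _, rfl⟩ := Finset.mem_map.1 hk
      rfl)
    hq (fun ω => ω.toLeft)
    (by
      intro η _
      ext e
      rw [Finset.mem_toLeft]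
      refine (@Finset.mem_union (WE G) (fun a b => propDecidable (a = b)) _ _ _).trans ?_
      constructor
      · rintro (h | h)
        · obtain ⟨e', he', hee⟩ := Finset.mem_map.1 h
          have : e' = e := by simpa using hee
          exact this ▸ he'
        · unfold Kx at h
          obtain ⟨z, _, hz⟩ := Finset.mem_map.1 h
          exact absurd hz (by simp)
      · intro he
        exact Or.inl (Finset.mem_map.2 ⟨e, he, rfl⟩))
    g
  unfold kI wI Lf
  rw [h]
  have hun : ∀ (i1 i2 : DecidableEq (WE G)) (A B : Finset (WE G)),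
      @Union.union (Finset (WE G)) (@Finset.instUnion _ i1) A B =
        @Union.union (Finset (WE G)) (@Finset.instUnion _ i2) A B := by
    intro i1 i2 A B
    rw [Subsingleton.elim i1 i2]
  exact congrArg (fun E => ex (φW G) (pW G p) q E (fun ω => g ω.toLeft)) (hun _ _ _ _)

end Pool.Agent.Helper37.RCU
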